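import Mathlib
import Pool.Agent.helper59.DelayedBasic

/-!
# Work functions of version (b) of the delayed server problem (MP_836b05_lc)

Abstract work functions on tuples of places: symmetric, Lipschitz, quasiconvex. The update by a
request, the duality inequality, the work function algorithm.
-/

set_option autoImplicit false
set_option linter.unusedSectionVars false

open scoped ENNReal NNReal

namespace Pool.Agent.helper6.DelayedWF

open Pool.Agent.helper59.DelayedServer

universe u

variable {M : Type u} [MetricSpace M] {k : ℕ}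

theorem moveCost_comp (X Y : Fin k → M) (σ : Equiv.Perm (Fin k)) :
    moveCost (X ∘ σ) (Y ∘ σ) = moveCost X Y := by
  unfold moveCost
  exact Equiv.sum_comp σ (fun i => dist (X i) (Y i))

/-- The properties of work functions which are used. -/
structure WFn (W : (Fin k → M) → ℝ) : Prop where
  symm : ∀ X (σ : Equiv.Perm (Fin k)), W (X ∘ σ) = W X
  lip : ∀ X Y, W Y ≤ W X + moveCost X Y
  qc : ∀ X Y, ∃ σ : Equiv.Perm (Fin k), ∀ S : Finset (Fin k),
    W (S.piecewise X (Y ∘ σ)) + W (S.piecewise (Y ∘ σ) X) ≤ W X + W Y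

/-- Every value is attained by bringing some server to `f`. -/
def Supp (W : (Fin k → M) → ℝ) (f : M) : Prop :=
  ∀ X, ∃ i, W (Function.update X i f) + dist (X i) f ≤ W X

theorem WFn.lip1 {W : (Fin k → M) → ℝ} (h : WFn W) (X : Fin k → M) (i : Fin k) (y : M) :
    W (Function.update X i y) ≤ W X + dist (X i) y := by
  have h1 := h.lip X (Function.update X i y)
  rwa [moveCost_update] at h1

theorem WFn.lip1' {W : (Fin k → M) → ℝ} (h : WFn W) (X : Fin k → M) (i : Fin k) (y : M) :
    W X ≤ W (Function.update X i y) + dist (X i) y := by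
  have h1 := h.lip (Function.update X i y) X
  rwa [moveCost_comm, moveCost_update] at h1

/-- In the quasiconvexity property servers at the same place may be matched. -/
theorem WFn.qc_match {W : (Fin k → M) → ℝ} (h : WFn W) {X Y : Fin k → M}
    {σ : Equiv.Perm (Fin k)}
    (hσ : ∀ S : Finset (Fin k),
      W (S.piecewise X (Y ∘ σ)) + W (S.piecewise (Y ∘ σ) X) ≤ W X + W Y)
    {a b : Fin k} (hab : X a = Y b) :
    ∀ S : Finset (Fin k), W (S.piecewise X (Y ∘ ⇑(σ * Equiv.swap a (σ⁻¹ b)))) +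
      W (S.piecewise (Y ∘ ⇑(σ * Equiv.swap a (σ⁻¹ b))) X) ≤ W X + W Y := by
  classical
  intro S
  set c := σ⁻¹ b with hc
  have hσc : σ c = b := by rw [hc]; simp
  have key : ∀ i, (Y ∘ ⇑(σ * Equiv.swap a c)) i = if i = a then X a else if i = c then Y (σ a)
      else Y (σ i) := by
    intro i
    show Y (σ (Equiv.swap a c i)) = _
    by_cases h1 : i = a
    · rw [if_pos h1, h1, Equiv.swap_apply_left, hσc, hab]
    · rw [if_neg h1]
      by_cases h2 : i = c
      · rw [if_pos h2, h2, Equiv.swap_apply_right]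
      · rw [if_neg h2, Equiv.swap_apply_of_ne_of_ne h1 h2]
  have hYc : (Y ∘ σ) c = X a := by
    show Y (σ c) = X a
    rw [hσc, hab]
  by_cases hac : a = c
  · have : Y ∘ ⇑(σ * Equiv.swap a c) = Y ∘ σ := by
      rw [← hac, Equiv.swap_self]
      rfl
    rw [this]
    exact hσ S
  by_cases hcS : c ∈ S
  · have h1 := hσ (insert a S)
    have e1 : (insert a S).piecewise X (Y ∘ σ) = S.piecewise X (Y ∘ ⇑(σ * Equiv.swap a c)) := by
      funext i
      by_cases hia : i = a
      · rw [hia, Finset.piecewise_eq_of_mem _ _ _ (Finset.mem_insert_self a S)]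
        by_cases haS : a ∈ S
        · rw [Finset.piecewise_eq_of_mem _ _ _ haS]
        · rw [Finset.piecewise_eq_of_notMem _ _ _ haS, key a, if_pos rfl]
      · by_cases hiS : i ∈ S
        · rw [Finset.piecewise_eq_of_mem _ _ _ hiS,
            Finset.piecewise_eq_of_mem _ _ _ (Finset.mem_insert_of_mem hiS)]
        · rw [Finset.piecewise_eq_of_notMem _ _ _ hiS, Finset.piecewise_eq_of_notMem]
          · rw [key i, if_neg hia, if_neg]
            · rfl
            · rintro rfl
              exact hiS hcS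
          · rw [Finset.mem_insert]
            tauto
    have e2 : (insert a S).piecewise (Y ∘ σ) X =
        (S.piecewise (Y ∘ ⇑(σ * Equiv.swap a c)) X) ∘ (Equiv.swap a c) := by
      funext i
      show _ = (S.piecewise (Y ∘ ⇑(σ * Equiv.swap a c)) X) (Equiv.swap a c i)
      by_cases hia : i = a
      · rw [hia, Finset.piecewise_eq_of_mem _ _ _ (Finset.mem_insert_self a S),
          Equiv.swap_apply_left, Finset.piecewise_eq_of_mem _ _ _ hcS, key c,
          if_neg (Ne.symm hac), if_pos rfl]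
        rfl
      · by_cases hic : i = c
        · rw [hic, Finset.piecewise_eq_of_mem _ _ _ (Finset.mem_insert_of_mem hcS),
            Equiv.swap_apply_right, hYc]
          by_cases haS : a ∈ S
          · rw [Finset.piecewise_eq_of_mem _ _ _ haS, key a, if_pos rfl]
          · rw [Finset.piecewise_eq_of_notMem _ _ _ haS]
        · rw [Equiv.swap_apply_of_ne_of_ne hia hic]
          by_cases hiS : i ∈ S
          · rw [Finset.piecewise_eq_of_mem _ _ _ hiS,
              Finset.piecewise_eq_of_mem _ _ _ (Finset.mem_insert_of_mem hiS), key i,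
              if_neg hia, if_neg hic]
            rfl
          · rw [Finset.piecewise_eq_of_notMem _ _ _ hiS, Finset.piecewise_eq_of_notMem]
            rw [Finset.mem_insert]
            tauto
    rw [e1, e2, h.symm] at h1
    exact h1
  · have h1 := hσ (S.erase a)
    have e1 : (S.erase a).piecewise X (Y ∘ σ) =
        (S.piecewise X (Y ∘ ⇑(σ * Equiv.swap a c))) ∘ (Equiv.swap a c) := by
      funext i
      show _ = (S.piecewise X (Y ∘ ⇑(σ * Equiv.swap a c))) (Equiv.swap a c i)
      by_cases hia : i = a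
      · rw [hia, Finset.piecewise_eq_of_notMem _ _ _ (Finset.notMem_erase a S),
          Equiv.swap_apply_left, Finset.piecewise_eq_of_notMem _ _ _ hcS, key c,
          if_neg (Ne.symm hac), if_pos rfl]
        rfl
      · by_cases hic : i = c
        · rw [hic, Equiv.swap_apply_right, Finset.piecewise_eq_of_notMem, hYc]
          · by_cases haS : a ∈ S
            · rw [Finset.piecewise_eq_of_mem _ _ _ haS]
            · rw [Finset.piecewise_eq_of_notMem _ _ _ haS, key a, if_pos rfl]
          · intro hm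
            exact hcS (Finset.mem_of_mem_erase hm)
        · rw [Equiv.swap_apply_of_ne_of_ne hia hic]
          by_cases hiS : i ∈ S
          · rw [Finset.piecewise_eq_of_mem _ _ _ hiS,
              Finset.piecewise_eq_of_mem _ _ _ (Finset.mem_erase.2 ⟨hia, hiS⟩)]
          · rw [Finset.piecewise_eq_of_notMem _ _ _ hiS, Finset.piecewise_eq_of_notMem,
              key i, if_neg hia, if_neg hic]
            · rfl
            · intro hm
              exact hiS (Finset.mem_of_mem_erase hm)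
    have e2 : (S.erase a).piecewise (Y ∘ σ) X =
        S.piecewise (Y ∘ ⇑(σ * Equiv.swap a c)) X := by
      funext i
      by_cases hia : i = a
      · rw [hia, Finset.piecewise_eq_of_notMem _ _ _ (Finset.notMem_erase a S)]
        by_cases haS : a ∈ S
        · rw [Finset.piecewise_eq_of_mem _ _ _ haS, key a, if_pos rfl]
        · rw [Finset.piecewise_eq_of_notMem _ _ _ haS]
      · by_cases hiS : i ∈ S
        · rw [Finset.piecewise_eq_of_mem _ _ _ hiS,
            Finset.piecewise_eq_of_mem _ _ _ (Finset.mem_erase.2 ⟨hia, hiS⟩), key i,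
            if_neg hia, if_neg]
          · rfl
          · rintro rfl
            exact hcS hiS
        · rw [Finset.piecewise_eq_of_notMem _ _ _ hiS, Finset.piecewise_eq_of_notMem]
          intro hm
          exact hiS (Finset.mem_of_mem_erase hm)
    rw [e1, e2, h.symm] at h1
    exact h1

/-! ## The first work function -/

/-- the work function at the start -/
noncomputable def W0 (x₀ : Fin k → M) (X : Fin k → M) : ℝ :=
  ⨅ σ : Equiv.Perm (Fin k), moveCost x₀ (X ∘ σ)

theorem W0_le (x₀ X : Fin k → M) (σ : Equiv.Perm (Fin k)) : W0 x₀ X ≤ moveCost x₀ (X ∘ σ) :=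
  ciInf_le (Set.finite_range _).bddBelow σ

theorem exists_W0 (x₀ X : Fin k → M) : ∃ σ : Equiv.Perm (Fin k), moveCost x₀ (X ∘ σ) = W0 x₀ X :=
  exists_eq_ciInf_of_finite

theorem W0_self (x₀ : Fin k → M) : W0 x₀ x₀ ≤ 0 := by
  have h := W0_le x₀ x₀ 1
  rw [Equiv.Perm.coe_one, Function.comp_id, moveCost_self] at h
  exact h

theorem WFn_W0 (x₀ : Fin k → M) : WFn (W0 x₀) := by
  have hsy : ∀ X (τ : Equiv.Perm (Fin k)), W0 x₀ (X ∘ τ) ≤ W0 x₀ X := by
    intro X τ
    obtain ⟨σ, hσ⟩ := exists_W0 x₀ X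
    have h := W0_le x₀ (X ∘ τ) (τ⁻¹ * σ)
    have e : (X ∘ τ) ∘ ⇑(τ⁻¹ * σ) = X ∘ σ := by
      funext i
      simp
    rw [e, hσ] at h
    exact h
  refine ⟨?_, ?_, ?_⟩
  · intro X τ
    refine le_antisymm (hsy X τ) ?_
    have h := hsy (X ∘ τ) τ⁻¹
    have e : (X ∘ τ) ∘ ⇑(τ⁻¹) = X := by
      funext i
      simp
    rw [e] at h
    exact h
  · intro X Y
    obtain ⟨σ, hσ⟩ := exists_W0 x₀ X
    have h := W0_le x₀ Y σ
    have h2 := moveCost_triangle x₀ (X ∘ σ) (Y ∘ σ)
    rw [moveCost_comp X Y σ] at h2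
    linarith
  · intro X Y
    obtain ⟨σ, hσ⟩ := exists_W0 x₀ X
    obtain ⟨τ, hτ⟩ := exists_W0 x₀ Y
    refine ⟨τ * σ⁻¹, fun S => ?_⟩
    have h1 := W0_le x₀ (S.piecewise X (Y ∘ ⇑(τ * σ⁻¹))) σ
    have h2 := W0_le x₀ (S.piecewise (Y ∘ ⇑(τ * σ⁻¹)) X) σ
    have h3 : moveCost x₀ ((S.piecewise X (Y ∘ ⇑(τ * σ⁻¹))) ∘ σ) +
        moveCost x₀ ((S.piecewise (Y ∘ ⇑(τ * σ⁻¹)) X) ∘ σ) =
        moveCost x₀ (X ∘ σ) + moveCost x₀ (Y ∘ τ) := by
      unfold moveCost
      rw [← Finset.sum_add_distrib, ← Finset.sum_add_distrib]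
      refine Finset.sum_congr rfl (fun i _ => ?_)
      show dist (x₀ i) ((S.piecewise X (Y ∘ ⇑(τ * σ⁻¹))) (σ i)) +
        dist (x₀ i) ((S.piecewise (Y ∘ ⇑(τ * σ⁻¹)) X) (σ i)) =
        dist (x₀ i) (X (σ i)) + dist (x₀ i) (Y (τ i))
      have e : (Y ∘ ⇑(τ * σ⁻¹)) (σ i) = Y (τ i) := by simp
      by_cases hi : σ i ∈ S
      · rw [Finset.piecewise_eq_of_mem _ _ _ hi, Finset.piecewise_eq_of_mem _ _ _ hi, e]
      · rw [Finset.piecewise_eq_of_notMem _ _ _ hi, Finset.piecewise_eq_of_notMem _ _ _ hi, e,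
          add_comm]
    linarith

theorem Supp_W0 (x₀ : Fin k → M) (f₀ : Fin k) : Supp (W0 x₀) (x₀ f₀) := by
  intro X
  obtain ⟨σ, hσ⟩ := exists_W0 x₀ X
  refine ⟨σ f₀, ?_⟩
  have h := W0_le x₀ (Function.update X (σ f₀) (x₀ f₀)) σ
  have e : (Function.update X (σ f₀) (x₀ f₀)) ∘ σ = Function.update (X ∘ σ) f₀ (x₀ f₀) := by
    funext i
    show Function.update X (σ f₀) (x₀ f₀) (σ i) = _
    by_cases hi : i = f₀
    · rw [hi, Function.update_self, Function.update_self]
    · rw [Function.update_of_ne hi, Function.update_of_ne]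
      · rfl
      · exact fun e => hi (σ.injective e)
  rw [e] at h
  have h2 : moveCost x₀ (Function.update (X ∘ σ) f₀ (x₀ f₀)) + dist (X (σ f₀)) (x₀ f₀) =
      moveCost x₀ (X ∘ σ) := by
    unfold moveCost
    rw [← Finset.add_sum_erase _ _ (Finset.mem_univ f₀),
      ← Finset.add_sum_erase _ (fun j => dist (x₀ j) ((X ∘ σ) j)) (Finset.mem_univ f₀),
      Function.update_self, dist_self]
    have : ∑ j ∈ Finset.univ.erase f₀, dist (x₀ j) (Function.update (X ∘ σ) f₀ (x₀ f₀) j)
        = ∑ j ∈ Finset.univ.erase f₀, dist (x₀ j) ((X ∘ σ) j) := by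
      refine Finset.sum_congr rfl (fun j hj => ?_)
      rw [Function.update_of_ne (Finset.ne_of_mem_erase hj)]
    rw [this]
    show 0 + _ + dist (X (σ f₀)) (x₀ f₀) = dist (x₀ f₀) (X (σ f₀)) + _
    rw [dist_comm (x₀ f₀)]
    ring
  linarith

/-! ## The update by a request -/

/-- the pairs of different servers -/
abbrev Pr (k : ℕ) : Type := {p : Fin k × Fin k // p.1 ≠ p.2}

/-- two servers are brought to `f` and `r` -/
def mv (X : Fin k → M) (i j : Fin k) (f r : M) : Fin k → M :=
  Function.update (Function.update X i f) j r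

theorem mv_left {X : Fin k → M} {i j : Fin k} (h : i ≠ j) (f r : M) : mv X i j f r i = f := by
  unfold mv
  rw [Function.update_of_ne h, Function.update_self]

theorem mv_right (X : Fin k → M) (i j : Fin k) (f r : M) : mv X i j f r j = r :=
  Function.update_self _ _ _

theorem mv_other {X : Fin k → M} {i j m : Fin k} (h : m ≠ i) (h' : m ≠ j) (f r : M) :
    mv X i j f r m = X m := by
  unfold mv
  rw [Function.update_of_ne h', Function.update_of_ne h]

theorem mv_eq_self {X : Fin k → M} {i j : Fin k} {f r : M} (hi : X i = f)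
    (hj : X j = r) : mv X i j f r = X := by
  unfold mv
  rw [← hi, Function.update_eq_self, ← hj, Function.update_eq_self]

theorem sum_split {i j : Fin k} (h : i ≠ j) (F : Fin k → ℝ) :
    ∑ m, F m = F i + F j + ∑ m ∈ (Finset.univ.erase i).erase j, F m := by
  rw [← Finset.add_sum_erase _ _ (Finset.mem_univ i),
    ← Finset.add_sum_erase (Finset.univ.erase i) F (Finset.mem_erase.2 ⟨h.symm, Finset.mem_univ j⟩)]
  ring

theorem sum_mv {X : Fin k → M} {i j : Fin k} (h : i ≠ j) (f r : M) (g : Fin k → M → ℝ) :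
    ∑ m, g m (mv X i j f r m) + g i (X i) + g j (X j) = ∑ m, g m (X m) + g i f + g j r := by
  rw [sum_split h (fun m => g m (mv X i j f r m)), sum_split h (fun m => g m (X m)),
    mv_left h, mv_right]
  have : ∑ m ∈ (Finset.univ.erase i).erase j, g m (mv X i j f r m) =
      ∑ m ∈ (Finset.univ.erase i).erase j, g m (X m) := by
    refine Finset.sum_congr rfl (fun m hm => ?_)
    rw [Finset.mem_erase, Finset.mem_erase] at hm
    rw [mv_other hm.2.1 hm.1]
  rw [this]
  ring

theorem moveCost_mv {X : Fin k → M} {i j : Fin k} (h : i ≠ j) (f r : M) :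
    moveCost X (mv X i j f r) = dist (X i) f + dist (X j) r := by
  have h1 := sum_mv (X := X) h f r (fun m y => dist (X m) y)
  simp only [dist_self, add_zero, Finset.sum_const_zero, zero_add] at h1
  exact h1

theorem moveCost_mv_mv {X Y : Fin k → M} {i j : Fin k} (h : i ≠ j) (f r : M) :
    moveCost (mv X i j f r) (mv Y i j f r) + dist (X i) (Y i) + dist (X j) (Y j) =
      moveCost X Y := by
  unfold moveCost
  rw [sum_split h, sum_split h (fun m => dist (X m) (Y m)), mv_left h, mv_left h, mv_right,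
    mv_right, dist_self, dist_self]
  have : ∑ m ∈ (Finset.univ.erase i).erase j, dist (mv X i j f r m) (mv Y i j f r m) =
      ∑ m ∈ (Finset.univ.erase i).erase j, dist (X m) (Y m) := by
    refine Finset.sum_congr rfl (fun m hm => ?_)
    rw [Finset.mem_erase, Finset.mem_erase] at hm
    rw [mv_other hm.2.1 hm.1, mv_other hm.2.1 hm.1]
  rw [this]
  ring

/-- the work function after the request `r`, if the frozen server is at `f` -/
noncomputable def upd (W : (Fin k → M) → ℝ) (f r : M) (X : Fin k → M) : ℝ :=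
  ⨅ p : Pr k, (W (mv X p.1.1 p.1.2 f r) + dist (X p.1.1) f + dist (X p.1.2) r)

theorem upd_le (W : (Fin k → M) → ℝ) (f r : M) (X : Fin k → M) {i j : Fin k} (h : i ≠ j) :
    upd W f r X ≤ W (mv X i j f r) + dist (X i) f + dist (X j) r :=
  ciInf_le (f := fun p : Pr k => W (mv X p.1.1 p.1.2 f r) + dist (X p.1.1) f + dist (X p.1.2) r)
    (Set.finite_range _).bddBelow ⟨(i, j), h⟩

theorem nonempty_Pr (hk : 2 ≤ k) : Nonempty (Pr k) :=
  ⟨⟨(⟨0, by omega⟩, ⟨1, by omega⟩), by
    intro h
    have := congrArg Fin.val h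
    simp at this⟩⟩

theorem exists_upd (hk : 2 ≤ k) (W : (Fin k → M) → ℝ) (f r : M) (X : Fin k → M) :
    ∃ i j : Fin k, i ≠ j ∧ W (mv X i j f r) + dist (X i) f + dist (X j) r = upd W f r X := by
  have := nonempty_Pr hk
  obtain ⟨p, hp⟩ := exists_eq_ciInf_of_finite (f := fun p : Pr k =>
    W (mv X p.1.1 p.1.2 f r) + dist (X p.1.1) f + dist (X p.1.2) r)
  exact ⟨p.1.1, p.1.2, p.2, hp⟩

theorem le_upd (hk : 2 ≤ k) {W : (Fin k → M) → ℝ} (h : WFn W) (f r : M) (X : Fin k → M) :
    W X ≤ upd W f r X := by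
  obtain ⟨i, j, hij, he⟩ := exists_upd hk W f r X
  have h1 := h.lip (mv X i j f r) X
  rw [moveCost_comm, moveCost_mv hij] at h1
  linarith

theorem upd_le_of_mem {W : (Fin k → M) → ℝ} {f r : M} {X : Fin k → M} {i j : Fin k} (hij : i ≠ j)
    (hi : X i = f) (hj : X j = r) : upd W f r X ≤ W X := by
  have h := upd_le W f r X hij
  rw [mv_eq_self hi hj, hi, hj, dist_self, dist_self] at h
  linarith

theorem Supp_upd (hk : 2 ≤ k) (W : (Fin k → M) → ℝ) (f r : M) : Supp (upd W f r) r := by
  intro X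
  obtain ⟨i, j, hij, he⟩ := exists_upd hk W f r X
  refine ⟨j, ?_⟩
  have h := upd_le W f r (Function.update X j r) hij
  have e : mv (Function.update X j r) i j f r = mv X i j f r := by
    unfold mv
    rw [Function.update_comm hij, Function.update_idem]
    exact Function.update_comm hij.symm _ _ _
  rw [e, Function.update_self, Function.update_of_ne hij, dist_self] at h
  linarith

theorem mv_comp (X : Fin k → M) (i j : Fin k) (f r : M) (σ : Equiv.Perm (Fin k)) :
    mv (X ∘ σ) i j f r = (mv X (σ i) (σ j) f r) ∘ σ := by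
  funext m
  show mv (X ∘ σ) i j f r m = mv X (σ i) (σ j) f r (σ m)
  unfold mv
  by_cases h1 : m = j
  · rw [h1, Function.update_self, Function.update_self]
  · have h1' : σ m ≠ σ j := fun e => h1 (σ.injective e)
    rw [Function.update_of_ne h1, Function.update_of_ne h1']
    by_cases h2 : m = i
    · rw [h2, Function.update_self, Function.update_self]
    · have h2' : σ m ≠ σ i := fun e => h2 (σ.injective e)
      rw [Function.update_of_ne h2, Function.update_of_ne h2']
      rfl

theorem WFn_upd (hk : 2 ≤ k) {W : (Fin k → M) → ℝ} (h : WFn W) (f r : M) :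
    WFn (upd W f r) := by
  have hsy : ∀ X (τ : Equiv.Perm (Fin k)), upd W f r (X ∘ τ) ≤ upd W f r X := by
    intro X τ
    obtain ⟨i, j, hij, he⟩ := exists_upd hk W f r X
    have h1 := upd_le W f r (X ∘ τ) (i := τ⁻¹ i) (j := τ⁻¹ j)
      (fun e => hij (τ⁻¹.injective e))
    rw [mv_comp, h.symm] at h1
    have e1 : τ (τ⁻¹ i) = i := by simp
    have e2 : τ (τ⁻¹ j) = j := by simp
    have e3 : (X ∘ τ) (τ⁻¹ i) = X i := by simp
    have e4 : (X ∘ τ) (τ⁻¹ j) = X j := by simp
    rw [e1, e2, e3, e4] at h1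
    linarith
  refine ⟨?_, ?_, ?_⟩
  · intro X τ
    refine le_antisymm (hsy X τ) ?_
    have h1 := hsy (X ∘ τ) τ⁻¹
    have e : (X ∘ τ) ∘ ⇑(τ⁻¹) = X := by
      funext i
      simp
    rw [e] at h1
    exact h1
  · intro X Y
    obtain ⟨i, j, hij, he⟩ := exists_upd hk W f r X
    have h1 := upd_le W f r Y hij
    have h2 := h.lip (mv X i j f r) (mv Y i j f r)
    have h3 := moveCost_mv_mv (X := X) (Y := Y) hij f r
    have h4 := dist_triangle (Y i) (X i) f
    have h5 := dist_triangle (Y j) (X j) r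
    rw [dist_comm (Y i) (X i)] at h4
    rw [dist_comm (Y j) (X j)] at h5
    linarith
  · intro X Y
    obtain ⟨i, j, hij, he⟩ := exists_upd hk W f r X
    obtain ⟨l, m, hlm, he'⟩ := exists_upd hk W f r Y
    obtain ⟨σ, hσ⟩ := h.qc (mv X i j f r) (mv Y l m f r)
    have h1 := h.qc_match hσ (a := i) (b := l) (by rw [mv_left hij, mv_left hlm])
    set σ₁ := σ * Equiv.swap i (σ⁻¹ l) with hσ₁
    have hi₁ : σ₁ i = l := by
      rw [hσ₁]
      simp
    have h2 := h.qc_match h1 (a := j) (b := m) (by rw [mv_right, mv_right])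
    set σ₂ := σ₁ * Equiv.swap j (σ₁⁻¹ m) with hσ₂
    have hj₂ : σ₂ j = m := by
      rw [hσ₂]
      simp
    have hi₂ : σ₂ i = l := by
      rw [hσ₂, Equiv.Perm.mul_apply, Equiv.swap_apply_of_ne_of_ne hij, hi₁]
      intro e
      apply hlm
      rw [← hi₁, e]
      simp
    refine ⟨σ₂, fun S => ?_⟩
    have h3 := h2 S
    have e1 : mv (S.piecewise X (Y ∘ σ₂)) i j f r =
        S.piecewise (mv X i j f r) ((mv Y l m f r) ∘ σ₂) := by
      funext n
      by_cases hn : n = i
      · rw [hn, mv_left hij]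
        by_cases hS : i ∈ S
        · rw [Finset.piecewise_eq_of_mem _ _ _ hS, mv_left hij]
        · rw [Finset.piecewise_eq_of_notMem _ _ _ hS, Function.comp_apply, hi₂, mv_left hlm]
      · by_cases hn' : n = j
        · rw [hn', mv_right]
          by_cases hS : j ∈ S
          · rw [Finset.piecewise_eq_of_mem _ _ _ hS, mv_right]
          · rw [Finset.piecewise_eq_of_notMem _ _ _ hS, Function.comp_apply, hj₂, mv_right]
        · rw [mv_other hn hn']
          by_cases hS : n ∈ S
          · rw [Finset.piecewise_eq_of_mem _ _ _ hS, Finset.piecewise_eq_of_mem _ _ _ hS,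
              mv_other hn hn']
          · rw [Finset.piecewise_eq_of_notMem _ _ _ hS, Finset.piecewise_eq_of_notMem _ _ _ hS,
              Function.comp_apply, Function.comp_apply, mv_other]
            · rw [← hi₂]
              exact fun e => hn (σ₂.injective e)
            · rw [← hj₂]
              exact fun e => hn' (σ₂.injective e)
    have e2 : mv (S.piecewise (Y ∘ σ₂) X) i j f r =
        S.piecewise ((mv Y l m f r) ∘ σ₂) (mv X i j f r) := by
      funext n
      by_cases hn : n = i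
      · rw [hn, mv_left hij]
        by_cases hS : i ∈ S
        · rw [Finset.piecewise_eq_of_mem _ _ _ hS, Function.comp_apply, hi₂, mv_left hlm]
        · rw [Finset.piecewise_eq_of_notMem _ _ _ hS, mv_left hij]
      · by_cases hn' : n = j
        · rw [hn', mv_right]
          by_cases hS : j ∈ S
          · rw [Finset.piecewise_eq_of_mem _ _ _ hS, Function.comp_apply, hj₂, mv_right]
          · rw [Finset.piecewise_eq_of_notMem _ _ _ hS, mv_right]
        · rw [mv_other hn hn']
          by_cases hS : n ∈ S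
          · rw [Finset.piecewise_eq_of_mem _ _ _ hS, Finset.piecewise_eq_of_mem _ _ _ hS,
              Function.comp_apply, Function.comp_apply, mv_other]
            · rw [← hi₂]
              exact fun e => hn (σ₂.injective e)
            · rw [← hj₂]
              exact fun e => hn' (σ₂.injective e)
          · rw [Finset.piecewise_eq_of_notMem _ _ _ hS, Finset.piecewise_eq_of_notMem _ _ _ hS,
              mv_other hn hn']
    have h4 := upd_le W f r (S.piecewise X (Y ∘ σ₂)) hij
    have h5 := upd_le W f r (S.piecewise (Y ∘ σ₂) X) hij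
    rw [e1] at h4
    rw [e2] at h5
    have h6 : ∀ (n n' : Fin k) (y : M), σ₂ n = n' →
        dist ((S.piecewise X (Y ∘ σ₂)) n) y + dist ((S.piecewise (Y ∘ σ₂) X) n) y =
        dist (X n) y + dist (Y n') y := by
      intro n n' y hn
      by_cases hS : n ∈ S
      · rw [Finset.piecewise_eq_of_mem _ _ _ hS, Finset.piecewise_eq_of_mem _ _ _ hS,
          Function.comp_apply, hn]
      · rw [Finset.piecewise_eq_of_notMem _ _ _ hS, Finset.piecewise_eq_of_notMem _ _ _ hS,
          Function.comp_apply, hn, add_comm]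
    have h7 := h6 i l f hi₂
    have h8 := h6 j m r hj₂
    linarith

/-! ## The duality inequality -/

/-- the value minimised in the duality inequality -/
noncomputable def TT (W : (Fin k → M) → ℝ) (q : M) : ℝ := ⨅ X : Fin k → M, (W X - ∑ i, dist q (X i))

/-- the values are bounded below -/
def Bd (W : (Fin k → M) → ℝ) : Prop :=
  ∀ q, BddBelow (Set.range fun X : Fin k → M => W X - ∑ i, dist q (X i))

theorem TT_le {W : (Fin k → M) → ℝ} (hb : Bd W) (q : M) (X : Fin k → M) :
    TT W q ≤ W X - ∑ i, dist q (X i) :=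
  ciInf_le (hb q) X

theorem le_TT {W : (Fin k → M) → ℝ} {q : M} {c : ℝ}
    (h : ∀ X : Fin k → M, c ≤ W X - ∑ i, dist q (X i)) : c ≤ TT W q := by
  have : Nonempty (Fin k → M) := ⟨fun _ => q⟩
  exact le_ciInf h

theorem Bd_W0 (x₀ : Fin k → M) : Bd (W0 x₀) := by
  intro q
  refine ⟨- ∑ i, dist q (x₀ i), ?_⟩
  rintro _ ⟨X, rfl⟩
  obtain ⟨σ, hσ⟩ := exists_W0 x₀ X
  show _ ≤ W0 x₀ X - ∑ i, dist q (X i)
  have h1 : ∑ i, dist q (X i) = ∑ i, dist q (X (σ i)) :=
    (Equiv.sum_comp σ (fun i => dist q (X i))).symm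
  have h2 : ∑ i, dist q (X (σ i)) ≤ ∑ i, dist q (x₀ i) + moveCost x₀ (X ∘ σ) := by
    unfold moveCost
    rw [← Finset.sum_add_distrib]
    exact Finset.sum_le_sum (fun i _ => dist_triangle _ _ _)
  rw [h1, ← hσ]
  linarith

theorem Bd.mono {W W' : (Fin k → M) → ℝ} (hb : Bd W) (h : ∀ X, W X ≤ W' X) : Bd W' := by
  intro q
  obtain ⟨c, hc⟩ := hb q
  refine ⟨c, ?_⟩
  rintro _ ⟨X, rfl⟩
  have h1 := hc ⟨X, rfl⟩
  have h2 := h X
  show c ≤ W' X - ∑ i, dist q (X i)
  have h3 : c ≤ W X - ∑ i, dist q (X i) := h1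
  linarith

theorem TT_mono {W W' : (Fin k → M) → ℝ} (hb : Bd W) (h : ∀ X, W X ≤ W' X) (q : M) :
    TT W q ≤ TT W' q := by
  refine le_TT fun X => ?_
  have h1 := TT_le hb q X
  have h2 := h X
  linarith

/-- The duality inequality. -/
theorem key (hk : 2 ≤ k) {W : (Fin k → M) → ℝ} (h : WFn W) {f : M} (hs : Supp W f) (hb : Bd W)
    (r : M) (B : Fin k → M) : TT W r + (upd W f r B - W B) ≤ TT (upd W f r) r := by
  refine le_TT fun A => ?_
  obtain ⟨i, j, hij, he⟩ := exists_upd hk W f r A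
  obtain ⟨l, hl⟩ := hs B
  obtain ⟨σ₀, hσ₀⟩ := h.qc (mv A i j f r) (Function.update B l f)
  have h1 := h.qc_match hσ₀ (a := i) (b := l) (by rw [mv_left hij, Function.update_self])
  set σ := σ₀ * Equiv.swap i (σ₀⁻¹ l) with hσ
  have hi : σ i = l := by
    rw [hσ]
    simp
  have hj : σ j ≠ l := by
    rw [← hi]
    exact fun e => hij (σ.injective e).symm
  have h2 := h1 (Finset.univ.erase j)
  have e1 : (Finset.univ.erase j).piecewise (mv A i j f r) ((Function.update B l f) ∘ σ) =
      mv A i j f (B (σ j)) := by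
    funext n
    by_cases hn : n = j
    · rw [hn, Finset.piecewise_eq_of_notMem _ _ _ (Finset.notMem_erase j _), mv_right,
        Function.comp_apply, Function.update_of_ne hj]
    · rw [Finset.piecewise_eq_of_mem _ _ _ (Finset.mem_erase.2 ⟨hn, Finset.mem_univ n⟩)]
      unfold mv
      rw [Function.update_of_ne hn, Function.update_of_ne hn]
  have e2 : (Finset.univ.erase j).piecewise ((Function.update B l f) ∘ σ) (mv A i j f r) =
      (mv B l (σ j) f r) ∘ σ := by
    funext n
    by_cases hn : n = j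
    · rw [hn, Finset.piecewise_eq_of_notMem _ _ _ (Finset.notMem_erase j _), mv_right,
        Function.comp_apply, mv_right]
    · rw [Finset.piecewise_eq_of_mem _ _ _ (Finset.mem_erase.2 ⟨hn, Finset.mem_univ n⟩)]
      have hne : σ n ≠ σ j := fun e => hn (σ.injective e)
      show Function.update B l f (σ n) =
        Function.update (Function.update B l f) (σ j) r (σ n)
      rw [Function.update_of_ne hne]
  rw [e1, e2, h.symm] at h2
  have h3 := upd_le W f r B (Ne.symm hj)
  have h4 := TT_le hb r (mv A i j f (B (σ j)))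
  have h5 := sum_mv (X := A) hij f (B (σ j)) (fun _ y => dist r y)
  have h6 := dist_triangle r f (A i)
  rw [dist_comm (A j) r] at he
  rw [dist_comm (B (σ j)) r] at h3
  rw [dist_comm f (A i)] at h6
  linarith

/-! ## The work function algorithm -/

theorem exists_pick (hk : 2 ≤ k) (a : Fin k) (F : Fin k → ℝ) :
    ∃ j, j ≠ a ∧ ∀ m, m ≠ a → F j ≤ F m := by
  have hne : (Finset.univ.erase a).Nonempty := by
    rw [← Finset.card_pos, Finset.card_erase_of_mem (Finset.mem_univ a), Finset.card_univ,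
      Fintype.card_fin]
    omega
  obtain ⟨j, hj, hmin⟩ := Finset.exists_min_image (Finset.univ.erase a) F hne
  exact ⟨j, Finset.ne_of_mem_erase hj, fun m hm =>
    hmin m (Finset.mem_erase.2 ⟨hm, Finset.mem_univ m⟩)⟩

/-- the server chosen by the algorithm -/
noncomputable def pick (hk : 2 ≤ k) (W : (Fin k → M) → ℝ) (s : (Fin k → M) × Fin k) (r : M) :
    Fin k :=
  Classical.choose (exists_pick hk s.2 (fun j => W (Function.update s.1 j r) + dist (s.1 j) r))

theorem pick_ne (hk : 2 ≤ k) (W : (Fin k → M) → ℝ) (s : (Fin k → M) × Fin k) (r : M) :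
    pick hk W s r ≠ s.2 :=
  (Classical.choose_spec (exists_pick hk s.2
    (fun j => W (Function.update s.1 j r) + dist (s.1 j) r))).1

theorem pick_min (hk : 2 ≤ k) (W : (Fin k → M) → ℝ) (s : (Fin k → M) × Fin k) (r : M)
    {m : Fin k} (hm : m ≠ s.2) :
    W (Function.update s.1 (pick hk W s r) r) + dist (s.1 (pick hk W s r)) r ≤
      W (Function.update s.1 m r) + dist (s.1 m) r :=
  (Classical.choose_spec (exists_pick hk s.2
    (fun j => W (Function.update s.1 j r) + dist (s.1 j) r))).2 m hm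

/-- one step of the algorithm -/
noncomputable def nxt (hk : 2 ≤ k) (W : (Fin k → M) → ℝ) (s : (Fin k → M) × Fin k) (r : M) :
    (Fin k → M) × Fin k :=
  (Function.update s.1 (pick hk W s r) r, pick hk W s r)

/-- The cost of a step of the algorithm. -/
theorem nxt_cost (hk : 2 ≤ k) {W : (Fin k → M) → ℝ} (h : WFn W) (s : (Fin k → M) × Fin k)
    (r : M) : moveCost s.1 (nxt hk W s r).1 + upd W (s.1 s.2) r (nxt hk W s r).1 ≤
      upd W (s.1 s.2) r s.1 := by
  set j := pick hk W s r with hj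
  have hne : j ≠ s.2 := pick_ne hk W s r
  have e1 : (nxt hk W s r).1 = Function.update s.1 j r := rfl
  rw [e1, moveCost_update]
  have h1 : upd W (s.1 s.2) r (Function.update s.1 j r) ≤ W (Function.update s.1 j r) :=
    upd_le_of_mem (i := s.2) (j := j) hne.symm (Function.update_of_ne hne.symm _ _)
      (Function.update_self _ _ _)
  have h2 : W (Function.update s.1 j r) + dist (s.1 j) r ≤ upd W (s.1 s.2) r s.1 := by
    obtain ⟨i, m, him, he⟩ := exists_upd hk W (s.1 s.2) r s.1
    rw [← he]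
    by_cases hi : i = s.2
    · have hm : m ≠ s.2 := by
        rw [← hi]
        exact him.symm
      have h3 := pick_min hk W s r hm
      rw [← hj] at h3
      have e2 : mv s.1 i m (s.1 s.2) r = Function.update s.1 m r := by
        unfold mv
        rw [← hi, Function.update_eq_self]
      rw [e2, hi, dist_self]
      linarith
    · by_cases hm : m = s.2
      · have h3 := pick_min hk W s r hi
        rw [← hj] at h3
        have e2 : mv s.1 i m (s.1 s.2) r = (Function.update s.1 i r) ∘ ⇑(Equiv.swap i m) := by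
          funext n
          rw [Function.comp_apply]
          by_cases hn : n = i
          · rw [hn, mv_left him, Equiv.swap_apply_left, Function.update_of_ne him.symm, hm]
          · by_cases hn' : n = m
            · rw [hn', mv_right, Equiv.swap_apply_right, Function.update_self]
            · rw [mv_other hn hn', Equiv.swap_apply_of_ne_of_ne hn hn',
                Function.update_of_ne hn]
        rw [e2, h.symm, hm]
        have h4 := dist_triangle (s.1 i) (s.1 s.2) r
        linarith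
      · have h3 := pick_min hk W s r hm
        rw [← hj] at h3
        have h4 := h.lip1' (Function.update s.1 m r) i (s.1 s.2)
        have e2 : Function.update (Function.update s.1 m r) i (s.1 s.2) =
            mv s.1 i m (s.1 s.2) r := by
          unfold mv
          exact Function.update_comm him.symm _ _ _
        rw [e2, Function.update_of_ne him] at h4
        linarith
  linarith

/-- the place of the latest request -/
def fr (x₀ : Fin k → M) (f₀ : Fin k) : List M → M
  | [] => x₀ f₀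
  | r :: _ => r

/-- the work function of a sequence of requests -/
noncomputable def wf (x₀ : Fin k → M) (f₀ : Fin k) : List M → (Fin k → M) → ℝ
  | [] => W0 x₀
  | r :: h => upd (wf x₀ f₀ h) (fr x₀ f₀ h) r

/-- the work function algorithm -/
noncomputable def alg (hk : 2 ≤ k) (x₀ : Fin k → M) (f₀ : Fin k) : List M → (Fin k → M) × Fin k
  | [] => (x₀, f₀)
  | r :: h => nxt hk (wf x₀ f₀ h) (alg hk x₀ f₀ h) r

theorem WFn_wf (hk : 2 ≤ k) (x₀ : Fin k → M) (f₀ : Fin k) (h : List M) : WFn (wf x₀ f₀ h) := by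
  induction h with
  | nil => exact WFn_W0 x₀
  | cons r h ih => exact WFn_upd hk ih _ r

theorem Supp_wf (hk : 2 ≤ k) (x₀ : Fin k → M) (f₀ : Fin k) (h : List M) :
    Supp (wf x₀ f₀ h) (fr x₀ f₀ h) := by
  cases h with
  | nil => exact Supp_W0 x₀ f₀
  | cons r h => exact Supp_upd hk _ _ r

theorem W0_le_wf (hk : 2 ≤ k) (x₀ : Fin k → M) (f₀ : Fin k) (h : List M) (X : Fin k → M) :
    W0 x₀ X ≤ wf x₀ f₀ h X := by
  induction h with
  | nil => exact le_rfl
  | cons r h ih => exact ih.trans (le_upd hk (WFn_wf hk x₀ f₀ h) _ r X)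

theorem Bd_wf (hk : 2 ≤ k) (x₀ : Fin k → M) (f₀ : Fin k) (h : List M) : Bd (wf x₀ f₀ h) :=
  (Bd_W0 x₀).mono (W0_le_wf hk x₀ f₀ h)

theorem alg_fr (hk : 2 ≤ k) (x₀ : Fin k → M) (f₀ : Fin k) (h : List M) :
    (alg hk x₀ f₀ h).1 (alg hk x₀ f₀ h).2 = fr x₀ f₀ h := by
  cases h with
  | nil => rfl
  | cons r h => exact Function.update_self _ _ _

theorem isAlgorithm_alg (hk : 2 ≤ k) (x₀ : Fin k → M) (f₀ : Fin k) :
    (delayedB x₀ f₀).IsAlgorithm (alg hk x₀ f₀) := by
  refine ⟨rfl, fun h r => ⟨?_, ?_, ?_⟩⟩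
  · exact pick_ne hk _ _ r
  · exact Function.update_self _ _ _
  · exact Function.update_of_ne (pick_ne hk _ _ r).symm _ _

theorem offline_ge (hk : 2 ≤ k) (x₀ : Fin k → M) (f₀ : Fin k) {h : List M}
    {s : (Fin k → M) × Fin k} {c : ℝ} (H : (delayedB x₀ f₀).Offline h s c) :
    s.1 s.2 = fr x₀ f₀ h ∧ wf x₀ f₀ h s.1 ≤ c := by
  refine OnlineProblem.Offline.induct (P := delayedB x₀ f₀)
    (motive := fun h (s : (Fin k → M) × Fin k) c =>
      s.1 s.2 = fr x₀ f₀ h ∧ wf x₀ f₀ h s.1 ≤ c) ?_ ?_ H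
  · exact ⟨rfl, W0_self x₀⟩
  · intro h (s : (Fin k → M) × Fin k) c r (t : (Fin k → M) × Fin k) hs hstep ih
    obtain ⟨h1, h2⟩ := ih
    obtain ⟨ht, htr, hts⟩ := hstep
    refine ⟨htr, ?_⟩
    have h3 := (WFn_wf hk x₀ f₀ h).lip s.1 t.1
    have h4 : wf x₀ f₀ (r :: h) t.1 ≤ wf x₀ f₀ h t.1 :=
      upd_le_of_mem (Ne.symm ht) (by rw [hts, h1]) htr
    show wf x₀ f₀ (r :: h) t.1 ≤ c + moveCost s.1 t.1
    linarith

/-- If a potential grows in each step at least by the growth of the work function at every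
configuration and is at most `N` times the smallest value of the work function (up to a
constant) then version (b) is `(N - 1)`-competitive. -/
theorem competitive_of_potential (hk : 2 ≤ k) (x₀ : Fin k → M) (f₀ : Fin k) (P : List M → ℝ)
    (N K : ℝ) (hN : 1 ≤ N)
    (h1 : ∀ (h : List M) (r : M) (B : Fin k → M),
      P h + (wf x₀ f₀ (r :: h) B - wf x₀ f₀ h B) ≤ P (r :: h))
    (h2 : ∀ (h : List M) (X : Fin k → M), P h ≤ N * wf x₀ f₀ h X + K) :
    (delayedB x₀ f₀).IsCompetitive (alg hk x₀ f₀) (N - 1) := by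
  have hcost : ∀ h : List M, (delayedB x₀ f₀).algCost (alg hk x₀ f₀) h + P [] +
      wf x₀ f₀ h (alg hk x₀ f₀ h).1 ≤ P h := by
    intro h
    induction h with
    | nil =>
      show (0 : ℝ) + P [] + W0 x₀ x₀ ≤ P []
      have := W0_self x₀
      linarith
    | cons r h ih =>
      have h3 := nxt_cost hk (WFn_wf hk x₀ f₀ h) (alg hk x₀ f₀ h) r
      rw [alg_fr hk x₀ f₀ h] at h3
      have h4 := h1 h r (alg hk x₀ f₀ h).1
      show (delayedB x₀ f₀).algCost (alg hk x₀ f₀) h +
        moveCost (alg hk x₀ f₀ h).1 (nxt hk (wf x₀ f₀ h) (alg hk x₀ f₀ h) r).1 + P [] +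
        upd (wf x₀ f₀ h) (fr x₀ f₀ h) r (nxt hk (wf x₀ f₀ h) (alg hk x₀ f₀ h) r).1 ≤ P (r :: h)
      have h5 : wf x₀ f₀ (r :: h) (alg hk x₀ f₀ h).1 =
        upd (wf x₀ f₀ h) (fr x₀ f₀ h) r (alg hk x₀ f₀ h).1 := rfl
      rw [h5] at h4
      linarith
  refine ⟨K - P [], fun h => ?_⟩
  have hoff : ∀ s c, (delayedB x₀ f₀).Offline h s c →
      (delayedB x₀ f₀).algCost (alg hk x₀ f₀) h + P [] - K ≤ (N - 1) * c := by
    intro (s : (Fin k → M) × Fin k) c H
    obtain ⟨-, h3⟩ := offline_ge hk x₀ f₀ H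
    have h4 := hcost h
    have hN' : 0 ≤ N - 1 := by linarith
    have h5 := mul_le_mul_of_nonneg_left h3 hN'
    rcases le_total (wf x₀ f₀ h s.1) (wf x₀ f₀ h (alg hk x₀ f₀ h).1) with h6 | h6
    · have h7 := h2 h s.1
      linarith
    · have h7 := h2 h (alg hk x₀ f₀ h).1
      have h8 := mul_le_mul_of_nonneg_left h6 hN'
      linarith
  have hA := isAlgorithm_alg hk x₀ f₀
  have hfin : (delayedB x₀ f₀).algCost (alg hk x₀ f₀) h + P [] - K ≤
      (N - 1) * (delayedB x₀ f₀).opt h := by
    rcases hN.eq_or_lt with e | hlt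
    · have h3 := hoff _ _ (hA.offline h)
      rw [← e, sub_self, zero_mul] at h3 ⊢
      exact h3
    · have hpos : 0 < N - 1 := by linarith
      have h3 : ((delayedB x₀ f₀).algCost (alg hk x₀ f₀) h + P [] - K) / (N - 1) ≤
          (delayedB x₀ f₀).opt h := by
        refine OnlineProblem.le_opt hA (fun s c H => ?_)
        rw [div_le_iff₀ hpos, mul_comm]
        exact hoff s c H
      rw [div_le_iff₀ hpos, mul_comm] at h3
      exact h3
  linarith

/-! ## Finite spaces -/

theorem Bd_of_finite [Finite M] (W : (Fin k → M) → ℝ) : Bd W :=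
  fun _ => (Set.finite_range _).bddBelow

/-- In a finite space with `n` points version (b) is `(n - 1)`-competitive. -/
theorem competitive_card [Fintype M] (hk : 2 ≤ k) (x₀ : Fin k → M) (f₀ : Fin k) :
    (delayedB x₀ f₀).IsCompetitive (alg hk x₀ f₀) ((Fintype.card M : ℝ) - 1) := by
  classical
  refine competitive_of_potential hk x₀ f₀ (fun h => ∑ q : M, TT (wf x₀ f₀ h) q)
    (Fintype.card M : ℝ) 0 ?_ ?_ ?_
  · have : 0 < Fintype.card M := Fintype.card_pos_iff.2 ⟨x₀ f₀⟩
    exact_mod_cast this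
  · intro h r B
    have h1 := key hk (WFn_wf hk x₀ f₀ h) (Supp_wf hk x₀ f₀ h) (Bd_wf hk x₀ f₀ h) r B
    rw [← Finset.add_sum_erase _ _ (Finset.mem_univ r),
      ← Finset.add_sum_erase _ (fun q => TT (wf x₀ f₀ (r :: h)) q) (Finset.mem_univ r)]
    have h2 : ∑ q ∈ Finset.univ.erase r, TT (wf x₀ f₀ h) q ≤
        ∑ q ∈ Finset.univ.erase r, TT (wf x₀ f₀ (r :: h)) q :=
      Finset.sum_le_sum (fun q _ => TT_mono (Bd_wf hk x₀ f₀ h)
        (le_upd hk (WFn_wf hk x₀ f₀ h) _ r) q)
    have h3 : wf x₀ f₀ (r :: h) = upd (wf x₀ f₀ h) (fr x₀ f₀ h) r := rfl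
    rw [h3] at h2 ⊢
    linarith
  · intro h X
    have h1 : ∑ q : M, TT (wf x₀ f₀ h) q ≤ ∑ _q : M, wf x₀ f₀ h X := by
      refine Finset.sum_le_sum (fun q _ => ?_)
      have h2 := TT_le (Bd_wf hk x₀ f₀ h) q X
      have h3 : 0 ≤ ∑ i, dist q (X i) := Finset.sum_nonneg (fun _ _ => dist_nonneg)
      linarith
    rw [Finset.sum_const, Finset.card_univ, nsmul_eq_mul] at h1
    linarith

/-! ## All metric spaces -/

/-- the value of the general potential at a configuration -/
noncomputable def Ps (W : (Fin k → M) → ℝ) (U : Fin k → M) : ℝ := k * W U + ∑ i, TT W (U i)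

theorem TT_lip {W : (Fin k → M) → ℝ} (hb : Bd W) (q q' : M) :
    TT W q' - k * dist q q' ≤ TT W q := by
  refine le_TT fun X => ?_
  have h1 := TT_le hb q' X
  have h2 : ∑ i, dist q (X i) ≤ ∑ i : Fin k, (dist q q' + dist q' (X i)) :=
    Finset.sum_le_sum (fun i _ => dist_triangle _ _ _)
  rw [Finset.sum_add_distrib, Finset.sum_const, Finset.card_univ, Fintype.card_fin,
    nsmul_eq_mul] at h2
  linarith

theorem Ps_update {W : (Fin k → M) → ℝ} (hb : Bd W) {r : M} (hs : Supp W r) (U : Fin k → M) :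
    ∃ i, Ps W (Function.update U i r) ≤ Ps W U := by
  obtain ⟨i, hi⟩ := hs U
  refine ⟨i, ?_⟩
  unfold Ps
  rw [← Finset.add_sum_erase _ _ (Finset.mem_univ i),
    ← Finset.add_sum_erase _ (fun m => TT W (U m)) (Finset.mem_univ i), Function.update_self]
  have h1 : ∑ m ∈ Finset.univ.erase i, TT W (Function.update U i r m) =
      ∑ m ∈ Finset.univ.erase i, TT W (U m) := by
    refine Finset.sum_congr rfl (fun m hm => ?_)
    rw [Function.update_of_ne (Finset.ne_of_mem_erase hm)]
  rw [h1]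
  have h2 := TT_lip hb (U i) r
  have h3 : (0 : ℝ) ≤ k := Nat.cast_nonneg k
  have h4 := mul_le_mul_of_nonneg_left hi h3
  linarith

theorem Ps_W0 (x₀ U : Fin k → M) : - ∑ i, ∑ j, dist (x₀ i) (x₀ j) ≤ Ps (W0 x₀) U := by
  obtain ⟨σ, hσ⟩ := exists_W0 x₀ U
  have h1 : ∀ q, - ∑ j, dist q (x₀ j) ≤ TT (W0 x₀) q := by
    intro q
    refine le_TT fun X => ?_
    obtain ⟨τ, hτ⟩ := exists_W0 x₀ X
    have h1 : ∑ i, dist q (X i) = ∑ i, dist q (X (τ i)) :=
      (Equiv.sum_comp τ (fun i => dist q (X i))).symm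
    have h2 : ∑ i, dist q (X (τ i)) ≤ ∑ i, dist q (x₀ i) + moveCost x₀ (X ∘ τ) := by
      unfold moveCost
      rw [← Finset.sum_add_distrib]
      exact Finset.sum_le_sum (fun i _ => dist_triangle _ _ _)
    rw [h1, ← hτ]
    linarith
  unfold Ps
  have h2 : ∑ i, TT (W0 x₀) (U i) = ∑ i, TT (W0 x₀) (U (σ i)) :=
    (Equiv.sum_comp σ (fun i => TT (W0 x₀) (U i))).symm
  rw [h2, ← hσ]
  have h3 : ∑ i, (- ∑ j, dist (U (σ i)) (x₀ j)) ≤ ∑ i, TT (W0 x₀) (U (σ i)) :=
    Finset.sum_le_sum (fun i _ => h1 _)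
  have h4 : ∑ i, ∑ j, dist (U (σ i)) (x₀ j) ≤
      ∑ i, ∑ j, (dist (x₀ i) (U (σ i)) + dist (x₀ i) (x₀ j)) := by
    refine Finset.sum_le_sum (fun i _ => Finset.sum_le_sum (fun j _ => ?_))
    have := dist_triangle (U (σ i)) (x₀ i) (x₀ j)
    rwa [dist_comm (U (σ i)) (x₀ i)] at this
  have h5 : ∑ i : Fin k, ∑ j : Fin k, (dist (x₀ i) (U (σ i)) + dist (x₀ i) (x₀ j)) =
      k * moveCost x₀ (U ∘ σ) + ∑ i, ∑ j, dist (x₀ i) (x₀ j) := by
    unfold moveCost
    rw [Finset.mul_sum, ← Finset.sum_add_distrib]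
    refine Finset.sum_congr rfl (fun i _ => ?_)
    rw [Finset.sum_add_distrib, Finset.sum_const, Finset.card_univ, Fintype.card_fin,
      nsmul_eq_mul]
    rfl
  rw [Finset.sum_neg_distrib] at h3
  linarith

/-- the values of the general potential are bounded below -/
theorem bddBelow_Ps (hk : 2 ≤ k) (x₀ : Fin k → M) (f₀ : Fin k) (h : List M) :
    BddBelow (Set.range (Ps (wf x₀ f₀ h))) := by
  refine ⟨- ∑ i, ∑ j, dist (x₀ i) (x₀ j), ?_⟩
  rintro _ ⟨U, rfl⟩
  refine (Ps_W0 x₀ U).trans ?_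
  unfold Ps
  have h1 := W0_le_wf hk x₀ f₀ h
  have h2 := mul_le_mul_of_nonneg_left (h1 U) (Nat.cast_nonneg k (α := ℝ))
  have h3 : ∑ i, TT (W0 x₀) (U i) ≤ ∑ i, TT (wf x₀ f₀ h) (U i) :=
    Finset.sum_le_sum (fun i _ => TT_mono (Bd_W0 x₀) h1 _)
  linarith

/-- In every metric space version (b) is `(2 k - 1)`-competitive. -/
theorem competitive_two_mul (hk : 2 ≤ k) (x₀ : Fin k → M) (f₀ : Fin k) :
    (delayedB x₀ f₀).IsCompetitive (alg hk x₀ f₀) (2 * (k : ℝ) - 1) := by
  classical
  have hk' : (2 : ℝ) ≤ k := by exact_mod_cast hk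
  have hne : Nonempty (Fin k → M) := ⟨x₀⟩
  refine competitive_of_potential hk x₀ f₀ (fun h => ⨅ U, Ps (wf x₀ f₀ h) U) (2 * (k : ℝ)) 0
    (by linarith) ?_ ?_
  · intro h r B
    refine le_ciInf fun U => ?_
    have hb := Bd_wf hk x₀ f₀ h
    have hb' := Bd_wf hk x₀ f₀ (r :: h)
    obtain ⟨i, hi⟩ := Ps_update hb' (Supp_wf hk x₀ f₀ (r :: h)) U
    refine le_trans ?_ hi
    have h1 := ciInf_le (bddBelow_Ps hk x₀ f₀ h) (Function.update U i r)
    have h2 := key hk (WFn_wf hk x₀ f₀ h) (Supp_wf hk x₀ f₀ h) hb r B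
    have h3 := le_upd hk (WFn_wf hk x₀ f₀ h) (fr x₀ f₀ h) r
    have h4 := mul_le_mul_of_nonneg_left (h3 (Function.update U i r))
      (Nat.cast_nonneg k (α := ℝ))
    have h5 : wf x₀ f₀ (r :: h) = upd (wf x₀ f₀ h) (fr x₀ f₀ h) r := rfl
    have h6 : ∑ m ∈ Finset.univ.erase i, TT (wf x₀ f₀ h) (Function.update U i r m) ≤
        ∑ m ∈ Finset.univ.erase i, TT (wf x₀ f₀ (r :: h)) (Function.update U i r m) :=
      Finset.sum_le_sum (fun m _ => TT_mono hb (by rw [h5]; exact h3) _)
    have h7 : fr x₀ f₀ (r :: h) = r := rfl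
    rw [h7]
    unfold Ps at h1 ⊢
    rw [← Finset.add_sum_erase _ _ (Finset.mem_univ i), Function.update_self] at h1 ⊢
    rw [h5] at h6 ⊢
    linarith
  · intro h X
    have h1 := ciInf_le (bddBelow_Ps hk x₀ f₀ h) X
    refine h1.trans ?_
    unfold Ps
    have h2 : ∑ i, TT (wf x₀ f₀ h) (X i) ≤ ∑ _i : Fin k, wf x₀ f₀ h X := by
      refine Finset.sum_le_sum (fun i _ => ?_)
      have h3 := TT_le (Bd_wf hk x₀ f₀ h) (X i) X
      have h4 : 0 ≤ ∑ j, dist (X i) (X j) := Finset.sum_nonneg (fun _ _ => dist_nonneg)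
      linarith
    rw [Finset.sum_const, Finset.card_univ, Fintype.card_fin, nsmul_eq_mul] at h2
    linarith

end Pool.Agent.helper6.DelayedWF
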